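import Pool.Agent.Run7.h942.DD.Main

namespace Pool.Agent.Results.MP_eeb8df_ag.NoDenseDrops

open MvPolynomial Pool.Agent.Run7.h942.DD

/-- Let `N ≥ 1` and let `F` be a dominant rational self-map of `P^N` over `ℂ(T_1,…,T_k)` (a family
depending rationally on the parameters `T`). Then `F` has a (unique) dynamical degree `δ`, every
dominant specialised map `f_t` has a dynamical degree, and for every `ε > 0` the set of all
`t ∈ ℂ^k` such that `f_t` is dominant with `δ(f_t) ≤ δ - ε` is not Zariski dense in `ℂ^k`: some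
nonzero polynomial vanishes on it. -/
theorem result (N : ℕ) (hN : 1 ≤ N) (k : ℕ)
    (F : Fin (N + 1) → MvPolynomial (Fin (N + 1)) (CT k)) (d : ℕ) (hF : IsDomRatMap F d) :
    ∃ δ : ℝ, HasDynDeg F δ ∧ (∀ δ', HasDynDeg F δ' → δ' = δ) ∧
      (∀ (t : Fin k → ℂ) (G : Fin (N + 1) → MvPolynomial (Fin (N + 1)) ℂ) (e : ℕ),
        IsMember t F G e → ∃ δ' : ℝ, HasDynDeg G δ' ∧ ∀ δ'', HasDynDeg G δ'' → δ'' = δ') ∧
      ∀ ε : ℝ, 0 < ε → ∃ q : MvPolynomial (Fin k) ℂ, q ≠ 0 ∧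
        ∀ t ∈ {t : Fin k → ℂ | ∃ (G : Fin (N + 1) → MvPolynomial (Fin (N + 1)) ℂ) (e : ℕ) (δ' : ℝ),
          IsMember t F G e ∧ HasDynDeg G δ' ∧ δ' ≤ δ - ε}, eval t q = 0 := by
  obtain ⟨δ, h1, h2, h3⟩ := no_drop N hN k F d hF
  refine ⟨δ, h1, h2, fun t G e hG => ?_, fun ε hε => ?_⟩
  · obtain ⟨F', H, -, -, -, h⟩ := hG
    exact dynDeg_exists N hN G e h
  · obtain ⟨q, hq, hq'⟩ := h3 ε hε
    refine ⟨q, hq, ?_⟩
    rintro t ⟨G, e, δ', hG, hδ', hle⟩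
    exact hq' t G e δ' hG hδ' hle

end Pool.Agent.Results.MP_eeb8df_ag.NoDenseDrops
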